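import Pool.Agent.helper96.SV.SpecA

set_option autoImplicit false

namespace Pool.Agent.SVA

open Polynomial Module

/-- rank of a family of functionals and dimension of its common kernel -/
theorem REL_rk {M E : Type} [AddCommGroup M] [Module ℂ M] [AddCommGroup E] [Module ℂ E]
    (W N : Submodule ℂ M) [FiniteDimensional ℂ W] (hN : N ≤ W)
    (Ψ : E →ₗ[ℂ] Dual ℂ W) (h : ∀ F : W, (F : M) ∈ N ↔ ∀ x, Ψ x F = 0) :
    finrank ℂ (LinearMap.range Ψ) + finrank ℂ N = finrank ℂ W := by
  have h1 := Subspace.finrank_add_finrank_dualCoannihilator_eq (LinearMap.range Ψ)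
  have h2 : (LinearMap.range Ψ).dualCoannihilator = N.comap W.subtype := by
    ext F
    rw [Submodule.mem_dualCoannihilator, Submodule.mem_comap]
    change _ ↔ (F : M) ∈ N
    rw [h]
    constructor
    · intro h3 x
      exact h3 (Ψ x) ⟨x, rfl⟩
    · rintro h3 _ ⟨x, rfl⟩
      exact h3 x
  rw [h2, (Submodule.comapSubtypeEquivOfLe hN).finrank_eq] at h1
  exact h1

/-- the functionals of a point -/
noncomputable def REL_f {K : Type} [Fintype K] [DecidableEq K] {m : K → ℕ} (e : ℕ)
    (Q : Py m × ℂ) : (Tan Q.1 × ℂ) →ₗ[ℂ] Dual ℂ (WW m e) :=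
  LinearMap.mk₂ ℂ (fun (u : Tan Q.1 × ℂ) (F : WW m e) =>
      pr (ev Q.2 F.1) u.1.1 + u.2 * pr (dv Q.2 F.1) (ten Q.1))
    (by
      intro u u' F
      simp only [Prod.fst_add, Prod.snd_add, Submodule.coe_add, pr_add_right]
      ring)
    (by
      intro c u F
      simp only [Prod.smul_fst, Prod.smul_snd, Submodule.coe_smul, pr_smul_right, smul_eq_mul]
      ring)
    (by
      intro u F F'
      simp only [Submodule.coe_add, ev_add, dv_add, pr_add_left]
      ring)
    (by
      intro c u F
      simp only [Submodule.coe_smul, ev_smul, dv_smul, pr_smul_left, smul_eq_mul]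
      ring)

theorem REL_f_apply {K : Type} [Fintype K] [DecidableEq K] {m : K → ℕ} (e : ℕ)
    (Q : Py m × ℂ) (u : Tan Q.1 × ℂ) (F : WW m e) :
    REL_f e Q u F = pr (ev Q.2 F.1) u.1.1 + u.2 * pr (dv Q.2 F.1) (ten Q.1) := rfl

theorem REL_f_Sg {K : Type} [Fintype K] [DecidableEq K] {m : K → ℕ} (e : ℕ)
    (Q : Py m × ℂ) (F : WW m e) : (F.1 ∈ Sg Q) ↔ ∀ u, REL_f e Q u F = 0 := by
  rw [mem_Sg]
  constructor
  · rintro ⟨h1, h2⟩ u
    rw [REL_f_apply, h1 _ u.1.2, h2, mul_zero, add_zero]
  · intro h
    constructor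
    · intro z hz
      have := h (⟨z, hz⟩, 0)
      rw [REL_f_apply] at this
      simpa using this
    · have := h (0, 1)
      rw [REL_f_apply] at this
      simpa [pr_zero_right] using this

/-- all functionals of a list of points -/
noncomputable def REL_g {K : Type} [Fintype K] [DecidableEq K] {m : K → ℕ} (e : ℕ)
    (l : List (Py m × ℂ)) :
    ((j : Fin l.length) → (Tan (l.get j).1 × ℂ)) →ₗ[ℂ] Dual ℂ (WW m e) :=
  ∑ j, (REL_f e (l.get j)).comp (LinearMap.proj j)

theorem REL_g_apply {K : Type} [Fintype K] [DecidableEq K] {m : K → ℕ} (e : ℕ)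
    (l : List (Py m × ℂ)) (u : (j : Fin l.length) → (Tan (l.get j).1 × ℂ)) (F : WW m e) :
    REL_g e l u F = ∑ j, REL_f e (l.get j) (u j) F := by
  simp [REL_g]

theorem REL_g_NN {K : Type} [Fintype K] [DecidableEq K] {m : K → ℕ} (e : ℕ)
    (l : List (Py m × ℂ)) (F : WW m e) : (F.1 ∈ NN e l) ↔ ∀ u, REL_g e l u F = 0 := by
  rw [mem_NN]
  constructor
  · rintro ⟨_, h⟩ u
    rw [REL_g_apply]
    apply Finset.sum_eq_zero
    intro j _
    exact (REL_f_Sg e (l.get j) F).1 (h _ (List.get_mem l j)) (u j)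
  · intro h
    refine ⟨mem_WW.1 F.2, ?_⟩
    intro P hP
    obtain ⟨j, rfl⟩ := List.mem_iff_get.1 hP
    rw [REL_f_Sg e (l.get j) F]
    intro w
    have h1 := h (Pi.single j w)
    rw [REL_g_apply, Finset.sum_eq_single j] at h1
    · rwa [Pi.single_eq_same] at h1
    · intro b _ hb
      rw [Pi.single_eq_of_ne hb, map_zero, LinearMap.zero_apply]
    · intro hj
      exact absurd (Finset.mem_univ j) hj

theorem REL (hT : TDM_stmt) (hW : WDM_stmt) : REL_stmt := by
  intro K _ _ _ m e l P hP h1 h2
  have hWd := hW m e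
  -- the rank of the functionals of `l`
  have r1 := REL_rk (WW m e) (NN e l) (NN_le e l) (REL_g e l) (REL_g_NN e l)
  -- all functionals
  have r2 := REL_rk (WW m e) (NN e (P :: l)) (NN_le e (P :: l))
    ((REL_g e l).coprod (REL_f e P)) (by
      intro F
      have e1 : F.1 ∈ NN e (P :: l) ↔ F.1 ∈ NN e l ∧ F.1 ∈ Sg P := by
        rw [mem_NN, mem_NN]
        constructor
        · rintro ⟨a, b⟩
          exact ⟨⟨a, fun Q hQ => b Q (List.mem_cons_of_mem _ hQ)⟩, b P List.mem_cons_self⟩
        · rintro ⟨⟨a, b⟩, c⟩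
          refine ⟨a, fun Q hQ => ?_⟩
          rcases List.mem_cons.1 hQ with hQ | hQ
          · rw [hQ]; exact c
          · exact b Q hQ
      rw [e1, REL_g_NN, REL_f_Sg]
      constructor
      · rintro ⟨a, b⟩ x
        rw [LinearMap.coprod_apply, LinearMap.add_apply, a, b, add_zero]
      · intro a
        constructor
        · intro u
          have := a (u, 0)
          rwa [LinearMap.coprod_apply, LinearMap.add_apply, map_zero, LinearMap.zero_apply,
            add_zero] at this
        · intro u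
          have := a (0, u)
          rwa [LinearMap.coprod_apply, LinearMap.add_apply, map_zero, LinearMap.zero_apply,
            zero_add] at this)
  have d1 : finrank ℂ ((j : Fin l.length) → (Tan (l.get j).1 × ℂ)) ≤ l.length * DD m := by
    rw [Module.finrank_pi_fintype]
    have : ∀ j ∈ (Finset.univ : Finset (Fin l.length)),
        finrank ℂ (Tan (l.get j).1 × ℂ) ≤ DD m := by
      intro j _
      rw [Module.finrank_prod, Module.finrank_self]
      exact (hT (l.get j).1).1
    have h3 := Finset.sum_le_card_nsmul _ _ _ this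
    rwa [Finset.card_univ, Fintype.card_fin, smul_eq_mul] at h3
  have d2 : finrank ℂ (Tan P.1 × ℂ) = DD m := by
    rw [Module.finrank_prod, Module.finrank_self]
    exact (hT P.1).2 hP
  have k1 := LinearMap.finrank_range_add_finrank_ker (REL_g e l)
  have k2 := LinearMap.finrank_range_add_finrank_ker ((REL_g e l).coprod (REL_f e P))
  rw [Module.finrank_prod, d2] at k2
  have kz : finrank ℂ (LinearMap.ker (REL_g e l)) = 0 := by omega
  have kp : 0 < finrank ℂ (LinearMap.ker ((REL_g e l).coprod (REL_f e P))) := by omega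
  have kz' : LinearMap.ker (REL_g e l) = ⊥ := Submodule.finrank_eq_zero.1 kz
  have kp' : LinearMap.ker ((REL_g e l).coprod (REL_f e P)) ≠ ⊥ := by
    intro h3
    rw [h3, finrank_bot] at kp
    exact lt_irrefl _ kp
  obtain ⟨⟨u, u0⟩, hu, hne⟩ := Submodule.exists_mem_ne_zero_of_ne_bot kp'
  rw [LinearMap.mem_ker, LinearMap.coprod_apply] at hu
  refine ⟨fun j => (u j).1.1, fun j => (u j).2, u0.1.1, u0.2, fun j => (u j).1.2, u0.1.2, ?_, ?_⟩
  · by_contra hcon
    push Not at hcon
    have hu0 : u0 = 0 := by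
      apply Prod.ext
      · exact Subtype.ext hcon.1
      · exact hcon.2
    apply hne
    have hu1 : REL_g e l u = 0 := by
      have h3 := hu
      simp only [hu0, map_zero, add_zero] at h3
      exact h3
    have hu2 : u ∈ LinearMap.ker (REL_g e l) := LinearMap.mem_ker.2 hu1
    rw [kz', Submodule.mem_bot] at hu2
    rw [hu2, hu0]
    rfl
  · intro F hF
    have h3 := congrArg (fun T => T (⟨F, hF⟩ : WW m e)) hu
    simp only [LinearMap.add_apply, LinearMap.zero_apply, REL_g_apply, REL_f_apply] at h3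
    exact h3

end Pool.Agent.SVA
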